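import Pool.Agent.R271.Weak

/-!
# No space with a 1-unconditional basis has the super alternative Daugavet property
-/

open Filter Topology Metric Set

namespace Pool.Agent.Results.MP_235f01_an.UncondNotSuperADP

/-- A nonempty relatively weakly open subset of the closed unit ball. -/
def RelWeakOpen {X : Type*} [NormedAddCommGroup X] [NormedSpace ℝ X] (W : Set X) : Prop :=
  W.Nonempty ∧ ∃ U : Set (WeakSpace ℝ X), IsOpen U ∧
    W = {y : X | y ∈ closedBall (0 : X) 1 ∧ toWeakSpace ℝ X y ∈ U}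

/-- The super alternative Daugavet property: `X` is infinite-dimensional and for every `x` in the
unit sphere and every nonempty relatively weakly open subset `W` of the unit ball, the supremum of
`max ‖x + y‖ ‖x - y‖` over `y ∈ W` is `2`. -/
def SuperADP (X : Type*) [NormedAddCommGroup X] [NormedSpace ℝ X] : Prop :=
  ¬ FiniteDimensional ℝ X ∧ ∀ x : X, ‖x‖ = 1 → ∀ W : Set X, RelWeakOpen W →
    IsLUB ((fun y : X => max ‖x + y‖ ‖x - y‖) '' W) 2

/-- The Schauder basis `b` is 1-unconditional: changing signs of the coefficients of a finite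
combination of basis vectors does not change its norm. -/
def OneUnconditional {X : Type*} [NormedAddCommGroup X] [NormedSpace ℝ X]
    (b : SchauderBasis ℝ X) : Prop :=
  ∀ (s : Finset ℕ) (a ε : ℕ → ℝ), (∀ n, ε n = 1 ∨ ε n = -1) →
    ‖∑ n ∈ s, (ε n * a n) • b n‖ = ‖∑ n ∈ s, a n • b n‖

section
variable {X : Type*} [NormedAddCommGroup X] [NormedSpace ℝ X]

lemma proj_proj (b : SchauderBasis ℝ X) (A B : Finset ℕ) (x : X) :
    GeneralSchauderBasis.proj b A (GeneralSchauderBasis.proj b B x) =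
      GeneralSchauderBasis.proj b (A ∩ B) x := by
  rw [GeneralSchauderBasis.proj_comp]
  refine congrArg (fun s => GeneralSchauderBasis.proj b s x) ?_
  ext i
  simp only [Finset.mem_inter]

lemma flip_norm {b : SchauderBasis ℝ X} (hb : OneUnconditional b) (F : Finset ℕ) (y : X) :
    ‖y - (2 : ℝ) • GeneralSchauderBasis.proj b F y‖ = ‖y‖ := by
  have h1 : Tendsto (fun n => b.proj n y) atTop (𝓝 y) := SchauderBasis.tendsto_proj b y
  have h2 : Tendsto (fun n => ‖b.proj n y‖) atTop (𝓝 ‖y‖) := h1.norm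
  have h3 : Tendsto (fun n => ‖b.proj n y -
      (2 : ℝ) • GeneralSchauderBasis.proj b F (b.proj n y)‖) atTop
      (𝓝 ‖y - (2 : ℝ) • GeneralSchauderBasis.proj b F y‖) := by
    apply Tendsto.norm
    apply h1.sub
    apply Tendsto.const_smul
    exact ((GeneralSchauderBasis.proj b F).continuous.tendsto y).comp h1
  have h4 : ∀ n, F ⊆ Finset.range n → ‖b.proj n y -
      (2 : ℝ) • GeneralSchauderBasis.proj b F (b.proj n y)‖ = ‖b.proj n y‖ := by
    intro n hn
    have e1 : GeneralSchauderBasis.proj b F (b.proj n y) = GeneralSchauderBasis.proj b F y := by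
      rw [SchauderBasis.proj, proj_proj, Finset.inter_eq_left.2 hn]
    rw [e1, GeneralSchauderBasis.proj_apply, SchauderBasis.proj_apply]
    rw [← hb (Finset.range n) (fun i => b.coord i y) (fun i => if i ∈ F then -1 else 1)
      (fun i => by by_cases h : i ∈ F <;> simp [h])]
    congr 1
    have e2 : ∑ i ∈ F, b.coord i y • b i =
        ∑ i ∈ Finset.range n, (if i ∈ F then b.coord i y • b i else 0) := by
      rw [← Finset.sum_filter]
      congr 1
      ext i
      simp only [Finset.mem_filter]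
      exact ⟨fun h => ⟨hn h, h⟩, fun h => h.2⟩
    rw [e2, Finset.smul_sum, ← Finset.sum_sub_distrib]
    apply Finset.sum_congr rfl
    intro i _
    split_ifs with h
    · rw [neg_one_mul, two_smul, neg_smul]; abel
    · simp
  obtain ⟨N, hN⟩ := F.exists_nat_subset_range
  have h5 : (fun n => ‖b.proj n y -
      (2 : ℝ) • GeneralSchauderBasis.proj b F (b.proj n y)‖) =ᶠ[atTop]
      fun n => ‖b.proj n y‖ := by
    filter_upwards [eventually_ge_atTop N] with n hn
    exact h4 n (hN.trans (Finset.range_mono hn))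
  exact tendsto_nhds_unique (h3.congr' h5) h2

lemma proj_norm_le {b : SchauderBasis ℝ X} (hb : OneUnconditional b) (F : Finset ℕ) (y : X) :
    ‖GeneralSchauderBasis.proj b F y‖ ≤ ‖y‖ := by
  have h1 : (2 : ℝ) • GeneralSchauderBasis.proj b F y =
      y - (y - (2 : ℝ) • GeneralSchauderBasis.proj b F y) := by abel
  have h2 : ‖(2 : ℝ) • GeneralSchauderBasis.proj b F y‖ ≤ ‖y‖ + ‖y‖ := by
    rw [h1]
    exact (norm_sub_le _ _).trans (by rw [flip_norm hb])
  rw [norm_smul, Real.norm_of_nonneg (by norm_num : (0:ℝ) ≤ 2)] at h2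
  linarith

/-- The main step: two disjointly supported unit vectors span `ℓ_∞^2` in a space with the super
alternative Daugavet property. -/
lemma main_step {b : SchauderBasis ℝ X} (hb : OneUnconditional b) (hX : SuperADP X)
    (G F : Finset ℕ) (hGF : Disjoint G F) (u v : X) (hu : ‖u‖ = 1) (hv : ‖v‖ = 1)
    (hGu : GeneralSchauderBasis.proj b G u = u) (hFv : GeneralSchauderBasis.proj b F v = v)
    (p q : ℝ) (hp : 0 ≤ p) (hq : 0 ≤ q) (hx : ‖p • u + q • v‖ = 1) : 1 ≤ max p q := by
  set x := p • u + q • v with hxdef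
  apply le_of_forall_pos_le_add
  intro κ hκ
  set η : ℝ := κ / (3 * (p + q) + 1) with hη
  have hden : 0 < 3 * (p + q) + 1 := by positivity
  have hη0 : 0 < η := div_pos hκ hden
  have hηκ : (3 * (p + q) + 1) * η = κ := by rw [hη]; field_simp
  -- the projections of `z`
  have hGv : GeneralSchauderBasis.proj b G v = 0 := by
    rw [← hFv, proj_proj]
    rw [Finset.disjoint_iff_inter_eq_empty.1 hGF]; simp
  have hFu : GeneralSchauderBasis.proj b F u = 0 := by
    rw [← hGu, proj_proj]
    rw [Finset.inter_comm, Finset.disjoint_iff_inter_eq_empty.1 hGF]; simp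
  set z : X := (1 / 2 : ℝ) • (u - v) with hz
  have hznorm : ‖z‖ ≤ 1 := by
    rw [hz, norm_smul, Real.norm_of_nonneg (by norm_num : (0:ℝ) ≤ 1 / 2)]
    have := norm_sub_le u v
    rw [hu, hv] at this
    linarith
  have hGz : GeneralSchauderBasis.proj b G z = (1 / 2 : ℝ) • u := by
    rw [hz, map_smul, map_sub, hGu, hGv, sub_zero]
  have hFz : GeneralSchauderBasis.proj b F z = -((1 / 2 : ℝ) • v) := by
    rw [hz, map_smul, map_sub, hFv, hFu, zero_sub, smul_neg]
  -- constant for coordinates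
  set C : ℝ := 1 + ∑ i ∈ G ∪ F, ‖b i‖ with hC
  have hC0 : 0 < C := by
    have : 0 ≤ ∑ i ∈ G ∪ F, ‖b i‖ := Finset.sum_nonneg fun _ _ => norm_nonneg _
    rw [hC]; linarith
  set r : ℝ := η / C with hr
  have hr0 : 0 < r := div_pos hη0 hC0
  have hproj : ∀ H : Finset ℕ, H ⊆ G ∪ F → ∀ y : X, (∀ i ∈ G ∪ F, ‖b.coord i y - b.coord i z‖ < r) →
      ‖GeneralSchauderBasis.proj b H y - GeneralSchauderBasis.proj b H z‖ ≤ η := by
    intro H hH y hy
    rw [← map_sub, GeneralSchauderBasis.proj_apply]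
    calc ‖∑ i ∈ H, b.coord i (y - z) • b i‖ ≤ ∑ i ∈ H, ‖b.coord i (y - z) • b i‖ :=
          norm_sum_le _ _
      _ ≤ ∑ i ∈ H, r * ‖b i‖ := by
          apply Finset.sum_le_sum
          intro i hi
          rw [norm_smul, map_sub]
          exact mul_le_mul_of_nonneg_right (hy i (hH hi)).le (norm_nonneg _)
      _ = r * ∑ i ∈ H, ‖b i‖ := by rw [Finset.mul_sum]
      _ ≤ r * ∑ i ∈ G ∪ F, ‖b i‖ := by
          apply mul_le_mul_of_nonneg_left _ hr0.le
          exact Finset.sum_le_sum_of_subset_of_nonneg hH fun _ _ _ => norm_nonneg _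
      _ ≤ r * C := by
          apply mul_le_mul_of_nonneg_left _ hr0.le
          rw [hC]; linarith
      _ = η := by rw [hr]; field_simp
  have hW : RelWeakOpen {y : X | y ∈ closedBall (0 : X) 1 ∧ toWeakSpace ℝ X y ∈
      {w : WeakSpace ℝ X | ∀ i ∈ G ∪ F,
        ‖b.coord i ((toWeakSpace ℝ X).symm w) - b.coord i z‖ < r}} := by
    refine ⟨⟨z, by simpa using hznorm, ?_⟩, _,
      R271.isOpen_weak_finset (G ∪ F) (fun i => b.coord i) (fun i => b.coord i z) r, rfl⟩
    intro i _
    simpa using hr0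
  have hlub := hX.2 x hx _ hW
  obtain ⟨y, hyW, hy⟩ : ∃ y : X, (y ∈ closedBall (0 : X) 1 ∧ ∀ i ∈ G ∪ F,
      ‖b.coord i y - b.coord i z‖ < r) ∧ 2 - η < max ‖x + y‖ ‖x - y‖ := by
    by_contra hcon
    push Not at hcon
    have : (2 : ℝ) ≤ 2 - η := by
      apply hlub.2
      rintro _ ⟨y, ⟨hy1, hy2⟩, rfl⟩
      exact hcon y ⟨hy1, fun i hi => by simpa using hy2 i hi⟩
    linarith
  obtain ⟨hyB, hyc⟩ := hyW
  have hyB' : ‖y‖ ≤ 1 := by simpa using hyB
  have hG := hproj G Finset.subset_union_left y hyc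
  have hF := hproj F Finset.subset_union_right y hyc
  rw [hGz] at hG
  rw [hFz, sub_neg_eq_add] at hF
  rcases lt_max_iff.1 hy with hplus | hminus
  · -- plus case
    obtain ⟨f, hf1, hf2⟩ := exists_dual_vector'' ℝ (x + y)
    have hfle : ∀ w : X, f w ≤ ‖w‖ := fun w =>
      (le_abs_self _).trans ((f.le_opNorm w).trans (by
        calc ‖f‖ * ‖w‖ ≤ 1 * ‖w‖ := mul_le_mul_of_nonneg_right hf1 (norm_nonneg _)
          _ = ‖w‖ := one_mul _))
    have hf2' : f (x + y) = ‖x + y‖ := by simpa using hf2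
    rw [map_add] at hf2'
    have h1 : f x ≤ 1 := by rw [← hx]; exact hfle x
    have h2 : f y ≤ 1 := (hfle y).trans hyB'
    have h3 : 1 - η < f y := by linarith
    have h4 : 1 - η < f x := by linarith
    have h5 : f (y - (2 : ℝ) • GeneralSchauderBasis.proj b F y) ≤ 1 :=
      (hfle _).trans ((flip_norm hb F y).le.trans hyB')
    rw [map_sub, map_smul, smul_eq_mul] at h5
    have h6 : f (GeneralSchauderBasis.proj b F y + (1 / 2 : ℝ) • v) ≤ η := (hfle _).trans hF
    rw [map_add, map_smul, smul_eq_mul] at h6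
    have h7 : f v ≤ 3 * η := by linarith
    have h8 : f u ≤ 1 := by rw [← hu]; exact hfle u
    have h9 : f x = p * f u + q * f v := by
      rw [hxdef, map_add, map_smul, map_smul, smul_eq_mul, smul_eq_mul]
    have h10 : p * f u ≤ p * 1 := mul_le_mul_of_nonneg_left h8 hp
    have h11 : q * f v ≤ q * (3 * η) := mul_le_mul_of_nonneg_left h7 hq
    have h12 : 0 ≤ p * η := mul_nonneg hp hη0.le
    have h13 : p ≤ max p q := le_max_left _ _
    nlinarith
  · -- minus case
    obtain ⟨f, hf1, hf2⟩ := exists_dual_vector'' ℝ (x - y)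
    have hfle : ∀ w : X, f w ≤ ‖w‖ := fun w =>
      (le_abs_self _).trans ((f.le_opNorm w).trans (by
        calc ‖f‖ * ‖w‖ ≤ 1 * ‖w‖ := mul_le_mul_of_nonneg_right hf1 (norm_nonneg _)
          _ = ‖w‖ := one_mul _))
    have hf2' : f (x - y) = ‖x - y‖ := by simpa using hf2
    rw [map_sub] at hf2'
    have h1 : f x ≤ 1 := by rw [← hx]; exact hfle x
    have h2 : - f y ≤ 1 := by
      rw [← map_neg]
      exact (hfle _).trans (by rw [norm_neg]; exact hyB')
    have h3 : 1 - η < - f y := by linarith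
    have h4 : 1 - η < f x := by linarith
    have h5 : f (-(y - (2 : ℝ) • GeneralSchauderBasis.proj b G y)) ≤ 1 :=
      (hfle _).trans (by rw [norm_neg]; exact (flip_norm hb G y).le.trans hyB')
    rw [map_neg, map_sub, map_smul, smul_eq_mul] at h5
    have h6 : f (-(GeneralSchauderBasis.proj b G y - (1 / 2 : ℝ) • u)) ≤ η :=
      (hfle _).trans (by rw [norm_neg]; exact hG)
    rw [map_neg, map_sub, map_smul, smul_eq_mul] at h6
    have h7 : f u ≤ 3 * η := by linarith
    have h8 : f v ≤ 1 := by rw [← hv]; exact hfle v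
    have h9 : f x = p * f u + q * f v := by
      rw [hxdef, map_add, map_smul, map_smul, smul_eq_mul, smul_eq_mul]
    have h10 : q * f v ≤ q * 1 := mul_le_mul_of_nonneg_left h8 hq
    have h11 : p * f u ≤ p * (3 * η) := mul_le_mul_of_nonneg_left h7 hp
    have h12 : 0 ≤ q * η := mul_nonneg hq hη0.le
    have h13 : q ≤ max p q := le_max_right _ _
    nlinarith

/-- The scaled form of `main_step`. -/
lemma main_step' {b : SchauderBasis ℝ X} (hb : OneUnconditional b) (hX : SuperADP X)
    (G F : Finset ℕ) (hGF : Disjoint G F) (u w : X) (hu : ‖u‖ = 1)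
    (hGu : GeneralSchauderBasis.proj b G u = u) (hFw : GeneralSchauderBasis.proj b F w = w)
    (p : ℝ) (hp : 0 ≤ p) : ‖p • u + w‖ ≤ max p ‖w‖ := by
  by_cases hw : w = 0
  · subst hw
    rw [add_zero, norm_smul, hu, mul_one, Real.norm_of_nonneg hp]
    exact le_max_left _ _
  by_cases hs : ‖p • u + w‖ = 0
  · rw [hs]; exact hp.trans (le_max_left _ _)
  set n := ‖p • u + w‖ with hn
  have hn0 : 0 < n := lt_of_le_of_ne (norm_nonneg _) (Ne.symm hs)
  have hw0 : 0 < ‖w‖ := norm_pos_iff.2 hw
  have h1 := main_step hb hX G F hGF u (‖w‖⁻¹ • w) hu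
    (by rw [norm_smul, norm_inv, norm_norm, inv_mul_cancel₀ hw0.ne'])
    hGu (by rw [map_smul, hFw]) (n⁻¹ * p) (n⁻¹ * ‖w‖) (by positivity) (by positivity)
    (by
      rw [smul_smul, mul_assoc, mul_inv_cancel₀ hw0.ne', mul_one, mul_smul, ← smul_add,
        norm_smul, norm_inv, Real.norm_of_nonneg hn0.le, ← hn, inv_mul_cancel₀ hs])
  rcases le_max_iff.1 h1 with h | h
  · rw [inv_mul_eq_div, le_div_iff₀ hn0, one_mul] at h
    exact h.trans (le_max_left _ _)
  · rw [inv_mul_eq_div, le_div_iff₀ hn0, one_mul] at h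
    exact h.trans (le_max_right _ _)

end

theorem result {X : Type*} [NormedAddCommGroup X] [NormedSpace ℝ X] [CompleteSpace X]
    (b : SchauderBasis ℝ X) (hb : OneUnconditional b) : ¬ SuperADP X := by
  intro hX
  have hb0 : b 0 ≠ 0 := b.linearIndependent.ne_zero 0
  have hb0' : 0 < ‖b 0‖ := norm_pos_iff.2 hb0
  set u : X := ‖b 0‖⁻¹ • b 0 with hu
  have hu1 : ‖u‖ = 1 := by rw [hu, norm_smul, norm_inv, norm_norm, inv_mul_cancel₀ hb0'.ne']
  have hGu : GeneralSchauderBasis.proj b {0} u = u := by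
    classical
    rw [hu, map_smul, GeneralSchauderBasis.proj_apply_basis_mem]; simp
  set r : ℝ := 1 / (2 * ‖b 0‖) with hr
  have hr0 : 0 < r := by rw [hr]; positivity
  have hW : RelWeakOpen {y : X | y ∈ closedBall (0 : X) 1 ∧ toWeakSpace ℝ X y ∈
      {w : WeakSpace ℝ X | ∀ i ∈ ({0} : Finset ℕ),
        ‖b.coord i ((toWeakSpace ℝ X).symm w) - 0‖ < r}} := by
    refine ⟨⟨0, by simp, ?_⟩, _,
      R271.isOpen_weak_finset ({0} : Finset ℕ) (fun i => b.coord i) (fun _ => 0) r, rfl⟩
    intro i _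
    simpa using hr0
  have hlub := hX.2 u hu1 _ hW
  have hbound : ∀ y : X, ‖y‖ ≤ 1 → |b.coord 0 y| < r → ‖u + y‖ ≤ 3 / 2 := by
    intro y hy hy0
    have h1 : Tendsto (fun n => u + b.proj (n + 1) y) atTop (𝓝 (u + y)) :=
      ((SchauderBasis.tendsto_proj b y).comp (tendsto_add_atTop_nat 1)).const_add u
    apply le_of_tendsto h1.norm
    filter_upwards with n
    -- split off the first coordinate
    have h2 : b.proj (n + 1) y = b.coord 0 y • b 0 +
        GeneralSchauderBasis.proj b ((Finset.range (n + 1)).erase 0) y := by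
      rw [SchauderBasis.proj_apply, GeneralSchauderBasis.proj_apply,
        Finset.add_sum_erase _ (fun i => b.coord i y • b i) (Finset.mem_range.2 (Nat.succ_pos n))]
    have h3 : u + b.proj (n + 1) y = (1 + b.coord 0 y * ‖b 0‖) • u +
        GeneralSchauderBasis.proj b ((Finset.range (n + 1)).erase 0) y := by
      rw [h2, add_smul, one_smul, hu, smul_smul, mul_assoc, mul_inv_cancel₀ hb0'.ne', mul_one,
        add_assoc]
    have h4 : |b.coord 0 y * ‖b 0‖| ≤ 1 / 2 := by
      rw [abs_mul, abs_norm]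
      calc |b.coord 0 y| * ‖b 0‖ ≤ r * ‖b 0‖ :=
            mul_le_mul_of_nonneg_right hy0.le (norm_nonneg _)
        _ = 1 / 2 := by rw [hr]; field_simp
    have h5 := abs_le.1 h4
    rw [h3]
    refine (main_step' hb hX {0} ((Finset.range (n + 1)).erase 0) ?_ u _ hu1 hGu ?_ _ ?_).trans ?_
    · rw [Finset.disjoint_singleton_left]; simp
    · rw [proj_proj, Finset.inter_self]
    · linarith
    · apply max_le
      · linarith
      · exact (proj_norm_le hb _ y).trans (by linarith)
  have hle : (2 : ℝ) ≤ 3 / 2 := by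
    apply hlub.2
    rintro _ ⟨y, ⟨hy1, hy2⟩, rfl⟩
    have hy1' : ‖y‖ ≤ 1 := by simpa using hy1
    have hy3 : |b.coord 0 y| < r := by simpa using hy2 0 (by simp)
    apply max_le
    · exact hbound y hy1' hy3
    · rw [sub_eq_add_neg]
      exact hbound (-y) (by rwa [norm_neg]) (by rwa [map_neg, abs_neg])
  norm_num at hle

end Pool.Agent.Results.MP_235f01_an.UncondNotSuperADP
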